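import Mathlib
import Pool.Agent.W680.WH.Stm2

set_option autoImplicit false

open scoped ComplexConjugate InnerProductSpace
open ContinuousLinearMap Filter
open Pool.Agent.W680.WH

namespace Pool.Agent.W724.WH

lemma Z_norm (f : E) : ‖Z f‖ ≤ 2 * ‖f‖ := by
  unfold Z wsh
  exact (ContinuousLinearMap.le_of_opNorm_le _ (LinearMap.mkContinuous_norm_le _ (by norm_num) _) f)

lemma Z2_norm (f : E) : ‖Z2 f‖ ≤ 2 * ‖f‖ := by
  unfold Z2 wsh
  exact (ContinuousLinearMap.le_of_opNorm_le _ (LinearMap.mkContinuous_norm_le _ (by norm_num) _) f)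

lemma iso_of_adj (V : E →L[ℂ] E) (h : adjoint V * V = 1) (f : E) : ‖V f‖ = ‖f‖ := by
  have h1 : ⟪V f, V f⟫_ℂ = ⟪f, f⟫_ℂ := by
    have h2 : adjoint V (V f) = f := by
      have := congrArg (fun A : E →L[ℂ] E => A f) h
      simpa using this
    rw [← ContinuousLinearMap.adjoint_inner_right, h2]
  rw [inner_self_eq_norm_sq_to_K, inner_self_eq_norm_sq_to_K] at h1
  have h3 : ‖V f‖ ^ 2 = ‖f‖ ^ 2 := by exact_mod_cast h1
  exact (pow_left_inj₀ (norm_nonneg _) (norm_nonneg _) (by norm_num)).1 h3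

lemma coef_ge (m : ℤ) (hm : m ≠ 0) :
    1 / 3 ≤ ‖((4 * ((m + 1 : ℤ) : ℂ) - 3) / (4 * ((m + 1 : ℤ) : ℂ) - 1)) - 1 / 3‖ := by
  have h1 : ((4 * ((m + 1 : ℤ) : ℂ) - 3) / (4 * ((m + 1 : ℤ) : ℂ) - 1)) - 1 / 3
      = (((8 * (m : ℝ)) / (3 * (4 * (m : ℝ) + 3)) : ℝ) : ℂ) := by
    have h2 : (4 * ((m + 1 : ℤ) : ℂ) - 1) ≠ 0 := by
      intro h
      have : (4 * (m + 1) - 1 : ℤ) = 0 := by exact_mod_cast h
      omega
    have h3 : (4 * (m : ℂ) + 3) ≠ 0 := by
      intro h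
      have : (4 * m + 3 : ℤ) = 0 := by exact_mod_cast h
      omega
    push_cast at h2 ⊢
    have h4 : 4 * ((m : ℂ) + 1) - 1 = 4 * (m : ℂ) + 3 := by ring
    rw [h4]
    field_simp
    ring
  rw [h1, Complex.norm_real, Real.norm_eq_abs, abs_div]
  rcases lt_or_gt_of_ne hm with h | h
  · have h5 : (m : ℝ) ≤ -1 := by exact_mod_cast (by omega : m ≤ -1)
    rw [abs_of_nonpos (by linarith : 8 * (m : ℝ) ≤ 0),
      abs_of_nonpos (by linarith : 3 * (4 * (m : ℝ) + 3) ≤ 0),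
      le_div_iff₀ (by linarith)]
    linarith
  · have h5 : (1 : ℝ) ≤ m := by exact_mod_cast (by omega : 1 ≤ m)
    rw [abs_of_nonneg (by linarith : 0 ≤ 8 * (m : ℝ)),
      abs_of_nonneg (by linarith : 0 ≤ 3 * (4 * (m : ℝ) + 3)),
      le_div_iff₀ (by linarith)]
    linarith

/-- the lower bound -/
lemma low (h3 : S_OPC) (g : E) :
    ‖g - co g 0 • eb 0‖ ≤ 6 * ‖Z2 g - (1 / 3 : ℂ) • Z g‖ := by
  obtain ⟨c1, c2, c3, c4, c5, c6, c7, c8, c9, -⟩ := h3
  have hsub : ∀ (f f' : E) (n : ℤ), co (f - f') n = co f n - co f' n := by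
    intro f f' n
    have e1 : f - f' = f + (-1 : ℂ) • f' := by rw [neg_one_smul, sub_eq_add_neg]
    rw [e1, c5, c6]; ring
  set h := g - co g 0 • eb 0 with hh
  set w := Z2 g - (1 / 3 : ℂ) • Z g with hw
  have hco : ∀ n, co h n = if n = 0 then 0 else co g n := by
    intro n
    rw [hh, hsub, c6, c1]
    split_ifs with hn
    · rw [hn]; ring
    · ring
  have wco : ∀ m : ℤ, co w (m + 1) =
      (((4 * ((m + 1 : ℤ) : ℂ) - 3) / (4 * ((m + 1 : ℤ) : ℂ) - 1)) - 1 / 3) * co g m := by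
    intro m
    rw [hw, hsub, c6, c4, c2]
    have : m + 1 - 1 = m := by ring
    rw [this]; ring
  have key : ∀ m : ℤ, om m * ‖co h m‖ ^ 2 ≤ 27 * (om (m + 1) * ‖co w (m + 1)‖ ^ 2) := by
    intro m
    rw [hco, wco]
    have hp := om_pos (m + 1)
    have hp0 := om_pos m
    split_ifs with hm
    · simp only [norm_zero]
      have : 0 ≤ 27 * (om (m + 1) * ‖(((4 * ((m + 1 : ℤ) : ℂ) - 3) /
        (4 * ((m + 1 : ℤ) : ℂ) - 1)) - 1 / 3) * co g m‖ ^ 2) := by positivity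
      simpa using this
    · have hc := coef_ge m hm
      have hr := (om_ratio_le m).2
      rw [norm_mul, mul_pow]
      have hc2 : (1 / 9 : ℝ) ≤ ‖((4 * ((m + 1 : ℤ) : ℂ) - 3) /
        (4 * ((m + 1 : ℤ) : ℂ) - 1)) - 1 / 3‖ ^ 2 := by
        have := pow_le_pow_left₀ (by norm_num : (0 : ℝ) ≤ 1 / 3) hc 2
        linarith
      have e2 : om m * ‖co g m‖ ^ 2 ≤ 3 * om (m + 1) * ‖co g m‖ ^ 2 :=
        mul_le_mul_of_nonneg_right hr (by positivity)
      have e3 : 3 * om (m + 1) * ‖co g m‖ ^ 2 * (1 / 9) ≤ 3 * om (m + 1) * ‖co g m‖ ^ 2 *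
          ‖((4 * ((m + 1 : ℤ) : ℂ) - 3) / (4 * ((m + 1 : ℤ) : ℂ) - 1)) - 1 / 3‖ ^ 2 :=
        mul_le_mul_of_nonneg_left hc2 (by positivity)
      nlinarith
  have s1 : Summable fun m : ℤ => om (m + 1) * ‖co w (m + 1)‖ ^ 2 :=
    (c8 w).comp_injective (i := fun m : ℤ => m + 1) (fun a b hab => by simpa using hab)
  have t1 : ∑' m : ℤ, om (m + 1) * ‖co w (m + 1)‖ ^ 2 = ∑' n : ℤ, om n * ‖co w n‖ ^ 2 :=
    (Equiv.addRight (1 : ℤ)).tsum_eq (fun n => om n * ‖co w n‖ ^ 2)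
  have sq : ‖h‖ ^ 2 ≤ 27 * ‖w‖ ^ 2 := by
    rw [c7, c7 w, ← t1, ← tsum_mul_left]
    exact (c8 h).tsum_le_tsum key (s1.mul_left _)
  have hn := norm_nonneg h
  have wn := norm_nonneg w
  nlinarith [sq]

theorem whc_unic (h1 : S_UNI) (h2 : S_OPA) (h3 : S_OPC) : S_UNIC := by
  intro ε hε
  refine ⟨min (1 / 2) (ε / 84), by positivity, lt_of_le_of_lt (min_le_left _ _) (by norm_num), ?_⟩
  intro r hr0 hr
  have hr1 : r < 1 := lt_of_lt_of_le hr (le_trans (min_le_left _ _) (by norm_num))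
  have hrε : 84 * r ≤ ε := by
    have := lt_of_lt_of_le hr (min_le_right _ _)
    linarith
  obtain ⟨V, hV1, hV2, hV3, hV4, γ, hγ0, hγp, hγ⟩ := h1 r hr0 hr1
  have hlow := low h3 (V (eb 0))
  obtain ⟨⟨o1, o2, o3, o4⟩, ⟨a1, a2⟩, ⟨b1, b2, b3, b4, -⟩, -⟩ := h2
  obtain ⟨c1, c2, c3, c4, c5, c6, c7, c8, c9, c10, -⟩ := h3
  have hiso := iso_of_adj V hV1
  have hco0 : co (V (eb 0)) 0 = (γ 0 : ℂ) := by simpa using hγ 0
  have neb0 : ‖eb 0‖ = 1 := by
    unfold eb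
    rw [lp.norm_single (by norm_num)]
    simp [om_zero]
  have neb1 : ‖eb 1‖ ≤ 2 := by
    have := Z_norm (eb 0)
    rw [b1 0, neb0] at this
    simpa using this
  set g := V (eb 0) with hg
  have hgn : ‖g‖ = 1 := by rw [hg, hiso, neb0]
  -- first relation
  have r1 : V (eb 1) - Z g = (r : ℂ) • g - (r : ℂ) • Z (V (eb 1)) := by
    have e := congrArg (fun A : E →L[ℂ] E => A (eb 0)) hV3
    simp only [ContinuousLinearMap.mul_apply, ContinuousLinearMap.add_apply,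
      ContinuousLinearMap.smul_apply, ContinuousLinearMap.one_apply] at e
    rw [b1 0, zero_add, ← hg] at e
    rw [sub_eq_sub_iff_add_eq_add, e, add_comm]
  have n1 : ‖V (eb 1) - Z g‖ ≤ 5 * r := by
    rw [r1]
    refine (norm_sub_le _ _).trans ?_
    rw [norm_smul, norm_smul, Complex.norm_real, Real.norm_of_nonneg hr0, hgn]
    have e1 := Z_norm (V (eb 1))
    rw [hiso] at e1
    have e2 : ‖Z (V (eb 1))‖ ≤ 4 := by linarith
    nlinarith
  -- second relation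
  have r2 : Z2 + (r : ℂ) • (1 : E →L[ℂ] E) = V * Z2 * adjoint V * (1 + (r : ℂ) • Z2) := by
    have e := congrArg adjoint hV3
    have e3 : adjoint ((1 + (r : ℂ) • Z) * V * Z) = Zs * adjoint V * (1 + (r : ℂ) • Zs) := by
      rw [← ContinuousLinearMap.star_eq_adjoint] 
      simp only [star_mul, star_add, star_smul, star_one]
      simp only [ContinuousLinearMap.star_eq_adjoint, a1]
      simp [mul_assoc]
    have e4 : adjoint ((Z + (r : ℂ) • (1 : E →L[ℂ] E)) * V) = adjoint V * (Zs + (r : ℂ) • 1) := by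
      rw [← ContinuousLinearMap.star_eq_adjoint] 
      simp only [star_mul, star_add, star_smul, star_one]
      simp only [ContinuousLinearMap.star_eq_adjoint, a1]
      simp
    rw [e3, e4] at e
    have e5 : V * Z2 * (Zs * adjoint V * (1 + (r : ℂ) • Zs)) * Z2
        = V * Z2 * (adjoint V * (Zs + (r : ℂ) • 1)) * Z2 := by rw [e]
    have e6 : V * Z2 * (Zs * adjoint V * (1 + (r : ℂ) • Zs)) * Z2
        = (V * (Z2 * Zs) * adjoint V) * (Z2 + (r : ℂ) • (Zs * Z2)) := by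
      simp only [mul_add, add_mul, mul_assoc, smul_mul_assoc, mul_smul_comm, one_mul, mul_one]
    have e7 : V * Z2 * (adjoint V * (Zs + (r : ℂ) • 1)) * Z2
        = V * Z2 * adjoint V * ((Zs * Z2) + (r : ℂ) • Z2) := by
      simp only [mul_add, add_mul, mul_assoc, smul_mul_assoc, mul_smul_comm, one_mul, mul_one]
    rw [e6, e7, o3, o4, mul_one, hV2, one_mul] at e5
    exact e5
  have r3 : (1 / 3 : ℂ) • V (eb 1) - Z2 g = (r : ℂ) • g - (r : ℂ) • V (Z2 (adjoint V (Z2 g))) := by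
    have e := congrArg (fun A : E →L[ℂ] E => A g) r2
    simp only [ContinuousLinearMap.mul_apply, ContinuousLinearMap.add_apply,
      ContinuousLinearMap.smul_apply, ContinuousLinearMap.one_apply, map_add, map_smul] at e
    have e8 : adjoint V g = eb 0 := by
      have := congrArg (fun A : E →L[ℂ] E => A (eb 0)) hV1
      simpa using this
    rw [e8, b3 0, map_smul] at e
    have e9 : ((4 * ((0 : ℤ) : ℂ) + 1) / (4 * ((0 : ℤ) : ℂ) + 3)) = 1 / 3 := by norm_num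
    rw [e9, zero_add] at e
    rw [sub_eq_sub_iff_add_eq_add, ← e, add_comm]
  have n2 : ‖(1 / 3 : ℂ) • V (eb 1) - Z2 g‖ ≤ 5 * r := by
    rw [r3]
    refine (norm_sub_le _ _).trans ?_
    rw [norm_smul, norm_smul, Complex.norm_real, Real.norm_of_nonneg hr0, hgn, hiso]
    have hVs : adjoint (adjoint V) * adjoint V = 1 := by
      rw [ContinuousLinearMap.adjoint_adjoint]; exact hV2
    have e1 := Z2_norm (adjoint V (Z2 g))
    rw [iso_of_adj (adjoint V) hVs] at e1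
    have e2 := Z2_norm g
    rw [hgn] at e2
    have e3 : ‖Z2 (adjoint V (Z2 g))‖ ≤ 4 := by linarith
    nlinarith
  have n3 : ‖Z2 g - (1 / 3 : ℂ) • Z g‖ ≤ 7 * r := by
    have e : Z2 g - (1 / 3 : ℂ) • Z g = (1 / 3 : ℂ) • (V (eb 1) - Z g)
        - ((1 / 3 : ℂ) • V (eb 1) - Z2 g) := by
      rw [smul_sub]; abel
    rw [e]
    refine (norm_sub_le _ _).trans ?_
    rw [norm_smul]
    have : ‖(1 / 3 : ℂ)‖ = 1 / 3 := by norm_num
    rw [this]
    linarith
  have n4 : ‖g - co g 0 • eb 0‖ ≤ 42 * r := by linarith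
  rw [hco0] at n4
  have n5 : ‖(γ 0 : ℂ) • eb 0‖ = γ 0 := by
    rw [norm_smul, neb0, Complex.norm_real, Real.norm_of_nonneg hγp.le, mul_one]
  have n6 : |1 - γ 0| ≤ 42 * r := by
    have := abs_norm_sub_norm_le g ((γ 0 : ℂ) • eb 0)
    rw [n5, hgn] at this
    linarith
  refine ⟨V, hV1, hV2, hV3, hV4, ?_, ?_⟩
  · rw [c10, ← hg, hco0, om_zero]
    simpa using hγp
  · rw [← hg]
    have e : g - eb 0 = (g - (γ 0 : ℂ) • eb 0) + ((γ 0 : ℂ) - 1) • eb 0 := by
      rw [sub_smul, one_smul]; abel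
    rw [e]
    refine (norm_add_le _ _).trans ?_
    have e2 : ‖((γ 0 : ℂ) - 1) • eb 0‖ = |1 - γ 0| := by
      rw [norm_smul, neb0, mul_one, ← Complex.ofReal_one, ← Complex.ofReal_sub,
        Complex.norm_real, Real.norm_eq_abs, abs_sub_comm]
    rw [e2]
    linarith

end Pool.Agent.W724.WH
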